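import Pool.Agent.Q194.TwoBump.Main

/-!
# The two shocks of the two-bump solution always merge in finite time

Full (positive) answer to Q1 of MP_5288f0_an, with the merging time.

The two-bump solution is described by its shocks `S₁ < S₂`, see `IsTwoBump` in
`Pool.Agent.Q194.TwoBump.Defs`: the density is `(α t) ^ (-1/α)` on `(ρ₁, S₁ t)`, the rarefaction fan on the
part of `(ρ₂, S₂ t)` to the right of `S₁ t`, and `0` elsewhere; its mass function has the initial value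
`m₁ 1_{[ρ₁, ∞)} + m₂ 1_{[ρ₂, ∞)}`; `S₁`, `S₂` start at `ρ₁`, `ρ₂` and satisfy the Rankine-Hugoniot
condition (also while `S₁` runs inside the fan).

Proof. Let `F(t, ρ)` be the mass function of the fan (continued by `m₁` for `ρ ≤ ρ₂`) and
`L(t, ρ) = (α t) ^ (-1/α) (ρ - ρ₁)`. Along the first shock `D = L - F` satisfies `D' = - u(t, S₁⁺) ^ α D`
and `D(0+) = 0`, so `D = 0`; along the second shock `F = m₁ + m₂`. In the self-similar variable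
`x = (ρ - ρ₂) / (α m₁ t ^ (1/α))` this says `Φ(x₁) = (α t) ^ (-1/α) (ρ₂ - ρ₁) / m₁` with a strictly
decreasing `Φ`, and `x₂ = κ` is constant; so `x₁` increases and reaches `κ` at a finite time.
-/

set_option autoImplicit false

namespace Pool.Agent.Results.MP_5288f0_an.ShocksMerge

open Set Pool.Agent.Q194.TwoBump

/-- Let `α > 1`, `0 < ρ₁ < ρ₂` and `m₁, m₂ > 0`. There is a time `T > 0` such that the two-bump
solution exists on `(0, T)` with `S₁ < S₂`, its shocks are continuous on `[0, T]` and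
`S₁ T = S₂ T`; at time `T` the constant density `(α T) ^ (-1/α)` on `(ρ₁, S₂ T)` has mass `m₁ + m₂`
(the vortex). Every two-bump solution with unmerged shocks on some interval `(0, T')` has `T' ≤ T`
and is the restriction of this one; in particular none has `S₁ t < S₂ t` for all `t > 0`.
Moreover `(α T) ^ (1/α) m₁ ((1 + k) ^ b - k ^ b) = ρ₂ - ρ₁`, where `b = (α - 1)/α` and
`(1 + k) ^ b = (m₁ + m₂)/m₁`. -/
theorem result (α ρ₁ ρ₂ m₁ m₂ : ℝ) (hα : 1 < α) (hρ₁ : 0 < ρ₁) (hρ : ρ₁ < ρ₂) (hm₁ : 0 < m₁)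
    (hm₂ : 0 < m₂) :
    ∃ T > 0,
      (∃ S₁ S₂ : ℝ → ℝ, IsTwoBump α ρ₁ ρ₂ m₁ m₂ (Ioo 0 T) S₁ S₂ ∧
        ContinuousOn S₁ (Icc 0 T) ∧ ContinuousOn S₂ (Icc 0 T) ∧ S₁ 0 = ρ₁ ∧ S₂ 0 = ρ₂ ∧
        S₁ T = S₂ T ∧ (α * T) ^ (-(1 / α)) * (S₂ T - ρ₁) = m₁ + m₂ ∧
        ∀ T' > 0, ∀ R₁ R₂ : ℝ → ℝ, IsTwoBump α ρ₁ ρ₂ m₁ m₂ (Ioo 0 T') R₁ R₂ →
          T' ≤ T ∧ ∀ t ∈ Ioo 0 T', R₁ t = S₁ t ∧ R₂ t = S₂ t) ∧
      (∀ S₁ S₂ : ℝ → ℝ, ¬ IsTwoBump α ρ₁ ρ₂ m₁ m₂ (Ioi 0) S₁ S₂) ∧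
      ∃ k > 0, (1 + k) ^ ((α - 1) / α) = (m₁ + m₂) / m₁ ∧
        (α * T) ^ (1 / α) * (m₁ * ((1 + k) ^ ((α - 1) / α) - k ^ ((α - 1) / α))) = ρ₂ - ρ₁ :=
  main_thm hα hρ₁ hρ hm₁ hm₂

end Pool.Agent.Results.MP_5288f0_an.ShocksMerge
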